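import Pool.Agent.Run7.h967.AL.Final

/-!
# Area law for lattice gauge theories with arbitrarily large `β` outside a sparse set of plaquettes
and at random places

`G` is a compact group (for instance `SU(n)`), `π` a unitary representation of dimension `N` in which
a central element `z` of finite order acts by a scalar `ζ ≠ 1`.  The directions of `ℤ^d` are divided
into blocks, and some of the coordinate intervals `[a, a + 1]` of the direction `i`, `a ∈ cut i`, are
cut.  A plaquette is weak if its two directions are in different blocks or if one of its two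
coordinate intervals is cut; if one cuts every `l`-th interval of every direction, then the weak
plaquettes have the density `2 / l - 1 / l ^ 2`.  The weights of the other plaquettes are
arbitrary: there `β` may be arbitrarily large.  The weights of the weak plaquettes are random; a weak
plaquette is bad if its weight is not `δ`-flat, and the probability that all plaquettes of a given set
are bad is at most `ε` to the number of the plaquettes, for instance since the weights are independent
and bad with probability at most `ε`; the bad plaquettes have arbitrary weights, too.  For the Wilson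
weight `exp (β_p Re tr π(U_p))` one can take `δ = exp (2 N b) - 1` if the plaquettes with
`|β_p| ≤ b` are to be the good ones.

Then the expectation of the supremum over all finite volumes of `|⟨tr π(U_γ)⟩|` is at most
`N ρ ^ n`, `ρ = 18432 d ^ 6 (δ + ε)`, for every rectangle `γ`, where `n` is the number of the weak unit
squares of the plane which are enclosed by `γ`.  So there is an area law as soon as `ρ < 1`, and this
threshold depends neither on `l` nor on the weights of the other plaquettes.
-/

set_option autoImplicit false

namespace Pool.Agent.Run7.h967.kept.SparseWeakCouplings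

open MeasureTheory Run7.h967.AL
open scoped ENNReal

/-- **Area law with weak couplings on a sparse set of plaquettes and with random defects.**
`n = cells blk cut y i j R T` is the number of weak cells of the rectangle with corner `y` and sides
`R` and `T` in the directions `i` and `j`; it is `R T` if `i` and `j` are in different blocks, and
at least `R T - (R - ⌊R / l⌋) (T - ⌊T / l⌋)` if the multiples of `l` are cut in these directions. -/
theorem result {d N : ℕ} {G : Type} [Group G] [TopologicalSpace G]
    [IsTopologicalGroup G] [CompactSpace G] [SecondCountableTopology G] [MeasurableSpace G]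
    [BorelSpace G] (μ : Measure G) [IsProbabilityMeasure μ] [μ.IsHaarMeasure]
    (π : G →* Matrix.unitaryGroup (Fin N) ℂ) (hπ : Continuous π)
    (z : G) (hz : ∀ g : G, z * g = g * z) (hfin : IsOfFinOrder z) (ζ : ℂ)
    (hπz : (π z : Matrix (Fin N) (Fin N) ℂ) = ζ • 1) (hζ : ζ ≠ 1)
    (blk : Fin d → ℕ) (cut : Fin d → Set ℤ)
    {Ω : Type} [MeasurableSpace Ω] (P : Measure Ω) [IsProbabilityMeasure P]
    (w : Ω → Plaq d → G → ℝ) (hw : ∀ ω p, Measurable (w ω p))
    (hw0 : ∀ ω p g, 0 ≤ w ω p g) (hwB : ∀ ω p, ∃ B, ∀ g, w ω p g ≤ B)
    (δ ε : ℝ) (hδ : 0 ≤ δ) (hε : 0 ≤ ε) (hm : ∀ p, MeasurableSet {ω | Flat δ (w ω p)})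
    (hP : ∀ K : Finset (Plaq d), (∀ p ∈ K, Weak blk cut p) →
      P {ω | ∀ p ∈ K, ¬ Flat δ (w ω p)} ≤ ENNReal.ofReal ε ^ K.card)
    (y : Site d) (i j : Fin d) (hij : i ≠ j) (R T : ℕ) :
    ∫⁻ ω, ⨆ Λ : Finset (Plaq d), ‖loop μ π Λ (w ω) y i j R T‖ₑ ∂P ≤
      ENNReal.ofReal (N * (18432 * (d : ℝ) ^ 6 * (δ + ε)) ^ cells blk cut y i j R T) ∧
    (blk i ≠ blk j → cells blk cut y i j R T = R * T) ∧
    ∀ l : ℕ, 0 < l → (∀ a : ℤ, (l : ℤ) ∣ a → a ∈ cut i) → (∀ a : ℤ, (l : ℤ) ∣ a → a ∈ cut j) →
      R * T - (R - R / l) * (T - T / l) ≤ cells blk cut y i j R T :=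
  ⟨quench μ π hπ z hz hfin ζ hπz hζ blk cut P w hw hw0 hwB δ ε hδ hε hm hP y i j hij R T,
    fun h => cells_blk blk cut y i j h R T, fun l hl hi hj => cells_grid blk cut y i j l hl hi hj R T⟩

end Pool.Agent.Run7.h967.kept.SparseWeakCouplings
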